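import Mathlib

set_option autoImplicit false

/-!
# Cellular automata whose memory lies in a coset of a cyclic subgroup

Helper file for MP_eca62b_al.
-/

namespace Pool.Agent.H637R2.Gott

universe u

variable {G : Type u} [Group G]

/-- the line map on `Bool^ℤ` -/
def lin (f : Bool → Bool → Bool → Bool) (i j : ℤ) (y : ℤ → Bool) : ℤ → Bool :=
  fun n => f (y n) (y (n + i)) (y (n + j))

theorem per_add {y : ℤ → Bool} {N : ℕ} (h : ∀ n, y (n + N) = y n) (m k : ℤ) :
    y (m + k * N) = y m := by
  have hp : Function.Periodic y (N : ℤ) := h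
  exact hp.int_mul k m

theorem lin_per_surj (f : Bool → Bool → Bool → Bool) (i j : ℤ) (N : ℕ) (hN : 0 < N)
    (hinj : ∀ y y' : ℤ → Bool, (∀ n, y (n + N) = y n) → (∀ n, y' (n + N) = y' n) →
      lin f i j y = lin f i j y' → y = y')
    (w : ℤ → Bool) (hw : ∀ n, w (n + N) = w n) :
    ∃ y : ℤ → Bool, (∀ n, y (n + N) = y n) ∧ lin f i j y = w := by
  let P : Type := {y : ℤ → Bool // ∀ n, y (n + N) = y n}
  have hfin : Finite P := by
    apply Finite.of_injective (fun (y : P) (k : Fin N) => y.1 (k : ℕ))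
    intro y y' h
    apply Subtype.ext
    funext n
    have h0 : (0 : ℤ) ≤ n % N := Int.emod_nonneg _ (by omega)
    have h1 : n % N < N := Int.emod_lt_of_pos _ (by omega)
    obtain ⟨k, hk⟩ := Int.eq_ofNat_of_zero_le h0
    have hkN : k < N := by omega
    have h2 : ∀ z : ℤ → Bool, (∀ n, z (n + N) = z n) → z n = z (k : ℕ) := by
      intro z hz
      have h3 := per_add hz (n % N) (n / N)
      have h4 : n % N + n / N * N = n := by
        have := Int.emod_add_mul_ediv n N
        linarith [mul_comm (N : ℤ) (n / N)]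
      rw [h4] at h3
      rw [h3, hk]
    rw [h2 _ y.2, h2 _ y'.2]
    exact congrFun h ⟨k, hkN⟩
  let σ : P → P := fun y => ⟨lin f i j y.1, fun n => by
    have e1 : n + N + i = n + i + N := by ring
    have e2 : n + N + j = n + j + N := by ring
    simp only [lin, e1, e2, y.2]⟩
  have hσ : Function.Injective σ := by
    intro y y' h
    exact Subtype.ext (hinj _ _ y.2 y'.2 (congrArg Subtype.val h))
  obtain ⟨y, hy⟩ := (Finite.injective_iff_surjective.1 hσ) ⟨w, hw⟩
  exact ⟨y.1, y.2, congrArg Subtype.val hy⟩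

theorem lin_surj (f : Bool → Bool → Bool → Bool) (i j : ℤ)
    (hinj : Function.Injective (lin f i j)) : Function.Surjective (lin f i j) := by
  intro w
  have hcont : Continuous (lin f i j) := by
    refine continuous_pi fun n => ?_
    have hf : Continuous (fun p : Bool × Bool × Bool => f p.1 p.2.1 p.2.2) :=
      continuous_of_discreteTopology
    have h5 : Continuous (fun y : ℤ → Bool => (y n, y (n + i), y (n + j))) := by fun_prop
    exact hf.comp h5
  have hclosed : IsClosed (Set.range (lin f i j)) := (isCompact_range hcont).isClosed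
  let wK : ℕ → ℤ → Bool := fun K n => w ((n + K) % ((2 * K + 1 : ℕ) : ℤ) - K)
  have htend : Filter.Tendsto wK Filter.atTop (nhds w) := by
    rw [tendsto_pi_nhds]
    intro n
    apply tendsto_const_nhds.congr'
    filter_upwards [Filter.eventually_ge_atTop n.natAbs] with K hK
    have h1 : (n + K) % ((2 * K + 1 : ℕ) : ℤ) = n + K := by
      apply Int.emod_eq_of_lt
      · omega
      · push_cast; omega
    show w n = w ((n + K) % ((2 * K + 1 : ℕ) : ℤ) - K)
    rw [h1]
    congr 1
    ring
  apply hclosed.mem_of_tendsto htend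
  apply Filter.Eventually.of_forall
  intro K
  obtain ⟨y, -, hy⟩ := lin_per_surj f i j (2 * K + 1) (by omega)
    (fun y y' _ _ h => hinj h) (wK K) (by
      intro n
      show w _ = w _
      have h1 : (n + ((2 * K + 1 : ℕ) : ℤ) + K) % ((2 * K + 1 : ℕ) : ℤ)
          = (n + K) % ((2 * K + 1 : ℕ) : ℤ) := by
        rw [show n + ((2 * K + 1 : ℕ) : ℤ) + K = n + K + ((2 * K + 1 : ℕ) : ℤ) by ring]
        exact Int.add_emod_right _ _
      rw [h1])
  exact ⟨y, hy⟩

/-- the map on `G` with memory `1, z^i, z^j` -/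
def sig (f : Bool → Bool → Bool → Bool) (z : G) (i j : ℤ) (x : G → Bool) : G → Bool :=
  fun h => f (x h) (x (h * z ^ i)) (x (h * z ^ j))

theorem line_inj (f : Bool → Bool → Bool → Bool) (z : G) (i j : ℤ)
    (hinj : Function.Injective (sig f z i j)) (y y' : ℤ → Bool)
    (hy : ∀ m n : ℤ, z ^ m = z ^ n → y m = y n) (hy' : ∀ m n : ℤ, z ^ m = z ^ n → y' m = y' n)
    (h : lin f i j y = lin f i j y') : y = y' := by
  classical
  let X : (ℤ → Bool) → G → Bool := fun y g =>
    if hg : ∃ k : ℤ, z ^ k = g then y hg.choose else false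
  have hX : ∀ y : ℤ → Bool, (∀ m n : ℤ, z ^ m = z ^ n → y m = y n) → ∀ n, X y (z ^ n) = y n := by
    intro y hy n
    have hg : ∃ k : ℤ, z ^ k = z ^ n := ⟨n, rfl⟩
    simp only [X, hg, dif_pos]
    exact hy _ _ hg.choose_spec
  have hX0 : ∀ (y : ℤ → Bool) (g : G), (¬ ∃ k : ℤ, z ^ k = g) → X y g = false := by
    intro y g hg
    simp only [X, hg, dif_neg, not_false_iff]
  have key : sig f z i j (X y) = sig f z i j (X y') := by
    funext g
    by_cases hg : ∃ k : ℤ, z ^ k = g
    · obtain ⟨n, rfl⟩ := hg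
      simp only [sig, ← zpow_add, hX y hy, hX y' hy']
      exact congrFun h n
    · have hgi : ∀ k : ℤ, ¬ ∃ l : ℤ, z ^ l = g * z ^ k := by
        rintro k ⟨l, hl⟩
        exact hg ⟨l - k, by rw [zpow_sub, hl]; group⟩
      simp only [sig, hX0 _ _ hg, hX0 _ _ (hgi i), hX0 _ _ (hgi j)]
  have := hinj key
  funext n
  rw [← hX y hy n, ← hX y' hy' n, this]

theorem line_surj (f : Bool → Bool → Bool → Bool) (z : G) (i j : ℤ)
    (hinj : Function.Injective (sig f z i j)) (w : ℤ → Bool)
    (hw : ∀ m n : ℤ, z ^ m = z ^ n → w m = w n) :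
    ∃ y : ℤ → Bool, (∀ m n : ℤ, z ^ m = z ^ n → y m = y n) ∧ lin f i j y = w := by
  by_cases hz : IsOfFinOrder z
  · have hN : 0 < orderOf z := hz.orderOf_pos
    have hP : ∀ y : ℤ → Bool, (∀ m n : ℤ, z ^ m = z ^ n → y m = y n) ↔
        ∀ n, y (n + (orderOf z : ℕ)) = y n := by
      intro y
      constructor
      · intro h n
        apply h
        rw [zpow_add, zpow_natCast, pow_orderOf_eq_one, mul_one]
      · intro h m n hmn
        rw [zpow_eq_zpow_iff_modEq] at hmn
        obtain ⟨k, hk⟩ := hmn.symm.dvd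
        have : m = n + k * (orderOf z : ℕ) := by linarith [mul_comm (orderOf z : ℤ) k]
        rw [this]
        exact per_add h n k
    obtain ⟨y, hy1, hy2⟩ := lin_per_surj f i j (orderOf z) hN
      (fun y y' h h' e => line_inj f z i j hinj y y' ((hP y).2 h) ((hP y').2 h') e) w ((hP w).1 hw)
    exact ⟨y, (hP y).2 hy1, hy2⟩
  · have hzi : ∀ m n : ℤ, z ^ m = z ^ n → m = n := fun m n h =>
      (injective_zpow_iff_not_isOfFinOrder.2 hz) h
    obtain ⟨y, hy⟩ := lin_surj f i j (fun y y' h => line_inj f z i j hinj y y'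
      (fun m n e => by rw [hzi m n e]) (fun m n e => by rw [hzi m n e]) h) w
    exact ⟨y, fun m n e => by rw [hzi m n e], hy⟩

theorem sig_surj (f : Bool → Bool → Bool → Bool) (z : G) (i j : ℤ)
    (hinj : Function.Injective (sig f z i j)) : Function.Surjective (sig f z i j) := by
  classical
  intro w
  -- coset representatives
  let rep : G → G := fun g => ((g : G ⧸ Subgroup.zpowers z)).out
  have hrep : ∀ g : G, ∃ n : ℤ, g = rep g * z ^ n := by
    intro g
    have h1 : ((rep g : G) : G ⧸ Subgroup.zpowers z) = (g : G ⧸ Subgroup.zpowers z) :=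
      Quotient.out_eq _
    rw [QuotientGroup.eq] at h1
    obtain ⟨n, hn⟩ := Subgroup.mem_zpowers_iff.1 h1
    exact ⟨n, by rw [hn]; group⟩
  have hrep2 : ∀ (g : G) (k : ℤ), rep (g * z ^ k) = rep g := by
    intro g k
    have h1 : ((g * z ^ k : G) : G ⧸ Subgroup.zpowers z) = (g : G ⧸ Subgroup.zpowers z) := by
      rw [eq_comm, QuotientGroup.eq]
      exact Subgroup.mem_zpowers_iff.2 ⟨k, by group⟩
    simp only [rep, h1]
  choose n hn using hrep
  have hline : ∀ h : G, ∃ y : ℤ → Bool, (∀ m n : ℤ, z ^ m = z ^ n → y m = y n) ∧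
      lin f i j y = fun n => w (h * z ^ n) :=
    fun h => line_surj f z i j hinj _ (fun m n e => by rw [e])
  choose Y hY1 hY2 using hline
  refine ⟨fun g => Y (rep g) (n g), ?_⟩
  have hval : ∀ (g : G) (k : ℤ), Y (rep (g * z ^ k)) (n (g * z ^ k)) = Y (rep g) (n g + k) := by
    intro g k
    rw [hrep2]
    apply hY1
    have h1 := hn (g * z ^ k)
    rw [hrep2] at h1
    have h2 : g * z ^ k = rep g * z ^ (n g + k) := by
      rw [zpow_add, ← mul_assoc, ← hn g]
    rw [h2] at h1
    have h3 := mul_left_cancel h1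
    rw [← h2] at h3
    exact h3.symm
  funext g
  show f (Y (rep g) (n g)) (Y (rep (g * z ^ i)) (n (g * z ^ i)))
    (Y (rep (g * z ^ j)) (n (g * z ^ j))) = w g
  rw [hval, hval]
  have h4 := congrFun (hY2 (rep g)) (n g)
  simp only [lin] at h4
  rw [h4, ← hn g]

end Pool.Agent.H637R2.Gott
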