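import Mathlib

set_option autoImplicit false

/-!
# Binary cellular automata with memory set of size three over arbitrary groups

Helper file for MP_eca62b_al.
-/

namespace Pool.Agent.H637R2.Gott

/-- the finite case analysis on the local rule -/
theorem rule_cases : ∀ f : Bool → Bool → Bool → Bool,
    f false false false ≠ f true true true →
    f true true false ≠ f false false true →
    f true false true ≠ f false true false →
    f false true true ≠ f true false false →
    ¬ (f true false false = f false false false ∧ f false true false = f false false false ∧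
      f false false true = f false false false) →
    (∃ e : Bool, ∀ x y z, f x y z = (e ^^ x)) ∨
    (∃ e : Bool, ∀ x y z, f x y z = (e ^^ y)) ∨
    (∃ e : Bool, ∀ x y z, f x y z = (e ^^ z)) ∨
    (∃ e : Bool, ∀ x y z, f x y z = (e ^^ (x ^^ (y ^^ z)))) ∨
    -- first coordinate negated
    ((∀ x x' y z, y = z → f x y z = f x' y z) ∧ (∀ x y y' z, x ≠ z → f x y z = f x y' z) ∧
      (∀ x y z z', x ≠ y → f x y z = f x y z')) ∨
    -- second coordinate negated
    ((∀ x x' y z, y ≠ z → f x y z = f x' y z) ∧ (∀ x y y' z, x = z → f x y z = f x y' z) ∧
      (∀ x y z z', x ≠ y → f x y z = f x y z')) ∨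
    -- third coordinate negated
    ((∀ x x' y z, y ≠ z → f x y z = f x' y z) ∧ (∀ x y y' z, x ≠ z → f x y z = f x y' z) ∧
      (∀ x y z z', x = y → f x y z = f x y z')) := by
  intro f h0 h1 h2 h3 h4
  -- the values of f
  obtain ⟨a, ha⟩ : ∃ a, f false false false = a := ⟨_, rfl⟩
  obtain ⟨b, hb⟩ : ∃ a, f false false true = a := ⟨_, rfl⟩
  obtain ⟨c, hc⟩ : ∃ a, f false true false = a := ⟨_, rfl⟩
  obtain ⟨d, hd⟩ : ∃ a, f true false false = a := ⟨_, rfl⟩
  have hA : f true true true = !a := by
    rw [ha] at h0
    cases h : f true true true <;> cases a <;> simp_all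
  have hB : f true true false = !b := by
    rw [hb] at h1
    cases h : f true true false <;> cases b <;> simp_all
  have hC : f true false true = !c := by
    rw [hc] at h2
    cases h : f true false true <;> cases c <;> simp_all
  have hD : f false true true = !d := by
    rw [hd] at h3
    cases h : f false true true <;> cases d <;> simp_all
  clear h0 h1 h2 h3
  rw [ha, hb, hc, hd] at h4
  cases a <;> cases b <;> cases c <;> cases d <;>
    simp only [Bool.not_true, Bool.not_false] at hA hB hC hD <;>
    simp_all

end Pool.Agent.H637R2.Gott
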