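import Mathlib
import Pool.Agent.H637R2.Gott.Small
import Pool.Agent.H637R2.Gott.Cyc

set_option autoImplicit false

namespace Pool.Agent.H637R2.Gott

universe u

variable {G : Type u} [Group G]

/-- the cellular automaton with memory `(a, b, c)` and local rule `f` -/
def tau (a b c : G) (f : Bool → Bool → Bool → Bool) (x : G → Bool) : G → Bool :=
  fun g => f (x (g * a)) (x (g * b)) (x (g * c))

theorem tau_const {a b c : G} {f : Bool → Bool → Bool → Bool}
    (hinj : Function.Injective (tau a b c f)) :
    f false false false ≠ f true true true := by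
  intro h
  have h1 : tau a b c f (fun _ => false) = tau a b c f (fun _ => true) := by
    funext g; exact h
  have h2 := congrFun (hinj h1) 1
  simp at h2

theorem tau_pair {p q r : G} {F : Bool → Bool → Bool → Bool}
    (hinj : Function.Injective (tau p q r F)) (hn : p⁻¹ * r ∉ Subgroup.zpowers (p⁻¹ * q)) :
    F true true false ≠ F false false true := by
  classical
  intro h
  have h0 := tau_const hinj
  let x : G → Bool := fun g => decide (g ∈ Subgroup.zpowers (p⁻¹ * q))
  have hx1 : x 1 = true := by simp [x, Subgroup.one_mem]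
  have hpq : ∀ g, x (g * q) = x (g * p) := by
    intro g
    have e : g * q = g * p * (p⁻¹ * q) := by group
    simp only [x, e]
    congr 1
    apply propext
    constructor
    · intro hh
      have := Subgroup.mul_mem _ hh (Subgroup.inv_mem _ (Subgroup.mem_zpowers (p⁻¹ * q)))
      simpa using this
    · intro hh
      exact Subgroup.mul_mem _ hh (Subgroup.mem_zpowers _)
  have hpr : ∀ g, ¬ (x (g * p) = true ∧ x (g * r) = true) := by
    rintro g ⟨h1, h2⟩
    simp only [x, decide_eq_true_eq] at h1 h2
    apply hn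
    have := Subgroup.mul_mem _ (Subgroup.inv_mem _ h1) h2
    have e : (g * p)⁻¹ * (g * r) = p⁻¹ * r := by group
    rwa [e] at this
  by_cases h3 : F true true false = F false false false
  · have h4 : tau p q r F x = tau p q r F (fun _ => false) := by
      funext g
      simp only [tau, hpq g]
      have := hpr g
      cases h5 : x (g * p) <;> cases h6 : x (g * r)
      · rfl
      · rw [← h, h3]
      · exact h3
      · exact absurd ⟨h5, h6⟩ this
    have h5 := congrFun (hinj h4) 1
    rw [hx1] at h5
    simp at h5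
  · have h3' : F true true false = F true true true := by
      revert h3 h0
      generalize F true true false = s
      generalize F false false false = s'
      generalize F true true true = s''
      cases s <;> cases s' <;> cases s'' <;> simp
    have h4 : tau p q r F (fun g => !(x g)) = tau p q r F (fun _ => true) := by
      funext g
      simp only [tau, hpq g]
      have := hpr g
      cases h5 : x (g * p) <;> cases h6 : x (g * r)
      · rfl
      · simpa using h3'
      · simp only [Bool.not_true, Bool.not_false]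
        rw [← h, h3']
      · exact absurd ⟨h5, h6⟩ this
    have h5 := congrFun (hinj h4) 1
    simp only [hx1] at h5
    simp at h5

theorem tau_maj {a b c : G} {f : Bool → Bool → Bool → Bool}
    (hinj : Function.Injective (tau a b c f)) (hab : a ≠ b) (hac : a ≠ c) (hbc : b ≠ c) :
    ¬ (f true false false = f false false false ∧ f false true false = f false false false ∧
      f false false true = f false false false) := by
  classical
  rintro ⟨h1, h2, h3⟩
  let x : G → Bool := fun g => decide (g = 1)
  have h4 : tau a b c f x = tau a b c f (fun _ => false) := by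
    funext g
    simp only [tau, x]
    by_cases ha : g * a = 1
    · have hb : ¬ g * b = 1 := fun h => hab (mul_left_cancel (ha.trans h.symm))
      have hc : ¬ g * c = 1 := fun h => hac (mul_left_cancel (ha.trans h.symm))
      simp only [ha, hb, hc, decide_true, decide_false]
      exact h1
    · by_cases hb : g * b = 1
      · have hc : ¬ g * c = 1 := fun h => hbc (mul_left_cancel (hb.trans h.symm))
        simp only [ha, hb, hc, decide_true, decide_false]
        exact h2
      · by_cases hc : g * c = 1
        · simp only [ha, hb, hc, decide_true, decide_false]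
          exact h3
        · simp only [ha, hb, hc, decide_false]
  have h5 := congrFun (hinj h4) 1
  simp [x] at h5

/-- a set containing exactly one end of each of two edges -/
theorem two_edges {T : Type u} {A B C D : T} (h1 : A ≠ B) (h2 : C ≠ D) :
    ∃ S : Set T, (A ∈ S ↔ B ∉ S) ∧ (C ∈ S ↔ D ∉ S) := by
  by_cases hA : A = C ∨ A = D
  · refine ⟨{A}, ?_, ?_⟩
    · simp [h1.symm]
    · rcases hA with rfl | rfl
      · simp [h2.symm]
      · simp [h2]
  · by_cases hB : B = C ∨ B = D
    · refine ⟨{B}, ?_, ?_⟩
      · simp [h1]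
      · rcases hB with rfl | rfl
        · simp [h2.symm]
        · simp [h2]
    · push Not at hA hB
      refine ⟨{A, C}, ?_, ?_⟩
      · simp [h1.symm, hB.1]
      · simp [h2.symm, hA.2.symm]

theorem tau_neg {p q r : G} {F : Bool → Bool → Bool → Bool}
    (hinj : Function.Injective (tau p q r F)) (hpq : p ≠ q) (hpr : p ≠ r) (hqr : q ≠ r)
    (hc1 : ¬ (p⁻¹ * q = r⁻¹ * p)) (hc2 : ¬ (p⁻¹ * r = (p⁻¹ * q) * (p⁻¹ * q)))
    (i1 : ∀ x x' y z, y ≠ z → F x y z = F x' y z) (i2 : ∀ x y y' z, x ≠ z → F x y z = F x y' z)
    (i3 : ∀ x y z z', x = y → F x y z = F x y z') : False := by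
  classical
  -- contraction
  let k : G → G := fun g => if g = r⁻¹ * q then r⁻¹ * p else g
  have hk5 : k (r⁻¹ * p) = k (r⁻¹ * q) := by
    have : r⁻¹ * p ≠ r⁻¹ * q := fun h => hpq (mul_left_cancel h)
    simp [k, this]
  have hloop : ∀ s t : G, s ≠ t → k s = k t →
      (s = r⁻¹ * q ∧ t = r⁻¹ * p) ∨ (s = r⁻¹ * p ∧ t = r⁻¹ * q) := by
    intro s t hst h
    by_cases hs : s = r⁻¹ * q
    · by_cases ht : t = r⁻¹ * q
      · exact absurd (hs.trans ht.symm) hst
      · left
        simp only [k, hs, if_true, ht, if_false] at h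
        exact ⟨hs, h.symm⟩
    · by_cases ht : t = r⁻¹ * q
      · right
        simp only [k, ht, if_true, hs, if_false] at h
        exact ⟨h, ht⟩
      · simp only [k, hs, ht, if_false] at h
        exact absurd h hst
  have e1 : k (p⁻¹ * q) ≠ k (p⁻¹ * r) := by
    intro h
    rcases hloop _ _ (fun h => hqr (mul_left_cancel h)) h with ⟨h1, h2⟩ | ⟨h1, h2⟩
    · have : p⁻¹ = r⁻¹ := mul_right_cancel h1
      exact hpr (inv_injective this)
    · exact hc1 h1
  have e2 : k (q⁻¹ * p) ≠ k (q⁻¹ * r) := by
    intro h
    rcases hloop _ _ (fun h => hpr (mul_left_cancel h)) h with ⟨h1, h2⟩ | ⟨h1, h2⟩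
    · apply hc2
      -- q⁻¹ p = r⁻¹ q
      have h3 : r = q * (p⁻¹ * q) := by
        have h4 : r * (q⁻¹ * p) = q := by rw [h1]; group
        have h5 : r = q * (q⁻¹ * p)⁻¹ := eq_mul_inv_of_mul_eq h4
        rw [h5]; group
      rw [h3]; group
    · have : q⁻¹ = r⁻¹ := mul_right_cancel h1
      exact hqr (inv_injective this)
  obtain ⟨S, hS1, hS2⟩ := two_edges e1 e2
  let X : G → Bool := fun g => decide (k g ∈ S)
  have hX1 : X (p⁻¹ * q) ≠ X (p⁻¹ * r) := by
    simp only [X, ne_eq, decide_eq_decide]
    tauto
  have hX2 : X (q⁻¹ * p) ≠ X (q⁻¹ * r) := by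
    simp only [X, ne_eq, decide_eq_decide]
    tauto
  have hX3 : X (r⁻¹ * p) = X (r⁻¹ * q) := by
    simp only [X, hk5]
  let X' : G → Bool := Function.update X 1 (!(X 1))
  have hX' : ∀ g, g ≠ 1 → X' g = X g := fun g hg => Function.update_of_ne hg _ _
  have key : tau p q r F X' = tau p q r F X := by
    funext g
    simp only [tau]
    by_cases hp : g * p = 1
    · have hg : g = p⁻¹ := eq_inv_of_mul_eq_one_left hp
      have hq : g * q ≠ 1 := fun h => hpq (mul_left_cancel (hp.trans h.symm))
      have hr : g * r ≠ 1 := fun h => hpr (mul_left_cancel (hp.trans h.symm))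
      rw [hX' _ hq, hX' _ hr]
      subst hg
      exact i1 _ _ _ _ hX1
    · by_cases hq : g * q = 1
      · have hg : g = q⁻¹ := eq_inv_of_mul_eq_one_left hq
        have hr : g * r ≠ 1 := fun h => hqr (mul_left_cancel (hq.trans h.symm))
        rw [hX' _ hp, hX' _ hr]
        subst hg
        exact i2 _ _ _ _ hX2
      · by_cases hr : g * r = 1
        · have hg : g = r⁻¹ := eq_inv_of_mul_eq_one_left hr
          rw [hX' _ hp, hX' _ hq]
          subst hg
          exact i3 _ _ _ _ hX3
        · rw [hX' _ hp, hX' _ hq, hX' _ hr]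
  have h1 := congrFun (hinj key) 1
  simp only [X', Function.update_self] at h1
  simp at h1

/-- no cyclic subgroup contains both `a⁻¹ b` and `a⁻¹ c` -/
def NC (a b c : G) : Prop :=
  ∀ z : G, ¬ (a⁻¹ * b ∈ Subgroup.zpowers z ∧ a⁻¹ * c ∈ Subgroup.zpowers z)

theorem NC.swap {a b c : G} (h : NC a b c) : NC a c b := fun z hz => h z ⟨hz.2, hz.1⟩

theorem NC.rot {a b c : G} (h : NC a b c) : NC b c a := by
  rintro z ⟨h1, h2⟩
  apply h z
  have h3 : a⁻¹ * b ∈ Subgroup.zpowers z := by
    have := Subgroup.inv_mem _ h2
    have e : (b⁻¹ * a)⁻¹ = a⁻¹ * b := by group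
    rwa [e] at this
  refine ⟨h3, ?_⟩
  have := Subgroup.mul_mem _ h3 h1
  have e : a⁻¹ * b * (b⁻¹ * c) = a⁻¹ * c := by group
  rwa [e] at this

theorem NC.ne12 {a b c : G} (h : NC a b c) : a ≠ b := by
  rintro rfl
  apply h (a⁻¹ * c)
  refine ⟨?_, Subgroup.mem_zpowers _⟩
  rw [inv_mul_cancel]
  exact Subgroup.one_mem _

theorem NC.pair {a b c : G} (h : NC a b c) : a⁻¹ * c ∉ Subgroup.zpowers (a⁻¹ * b) :=
  fun h1 => h _ ⟨Subgroup.mem_zpowers _, h1⟩

theorem NC.c1 {a b c : G} (h : NC a b c) : ¬ (a⁻¹ * b = c⁻¹ * a) := by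
  intro e
  apply h (a⁻¹ * c)
  refine ⟨?_, Subgroup.mem_zpowers _⟩
  rw [e]
  have := Subgroup.inv_mem _ (Subgroup.mem_zpowers (a⁻¹ * c))
  have e2 : (a⁻¹ * c)⁻¹ = c⁻¹ * a := by group
  rwa [e2] at this

theorem NC.c2 {a b c : G} (h : NC a b c) : ¬ (a⁻¹ * c = (a⁻¹ * b) * (a⁻¹ * b)) := by
  intro e
  apply h (a⁻¹ * b)
  refine ⟨Subgroup.mem_zpowers _, ?_⟩
  rw [e]
  exact Subgroup.mul_mem _ (Subgroup.mem_zpowers _) (Subgroup.mem_zpowers _)

/-- If `{a, b, c}` generates (after translation) a non-cyclic group, the injective rules are affine. -/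
theorem noncyc {a b c : G} {f : Bool → Bool → Bool → Bool} (hNC : NC a b c)
    (hinj : Function.Injective (tau a b c f)) :
    (∃ e : Bool, ∀ x y z, f x y z = (e ^^ x)) ∨
    (∃ e : Bool, ∀ x y z, f x y z = (e ^^ y)) ∨
    (∃ e : Bool, ∀ x y z, f x y z = (e ^^ z)) ∨
    (∃ e : Bool, ∀ x y z, f x y z = (e ^^ (x ^^ (y ^^ z)))) := by
  have hab := hNC.ne12
  have hac := hNC.swap.ne12
  have hbc := hNC.rot.ne12
  -- permuted versions
  have inj2 : Function.Injective (tau a c b (fun x z y => f x y z)) := hinj
  have inj3 : Function.Injective (tau b c a (fun y z x => f x y z)) := hinj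
  have h0 := tau_const hinj
  have h1 := tau_pair hinj hNC.pair
  have h2 := tau_pair inj2 hNC.swap.pair
  have h3 := tau_pair inj3 hNC.rot.pair
  have h4 := tau_maj hinj hab hac hbc
  rcases rule_cases f h0 h1 h2 h3 h4 with h | h | h | h | h | h | h
  · exact Or.inl h
  · exact Or.inr (Or.inl h)
  · exact Or.inr (Or.inr (Or.inl h))
  · exact Or.inr (Or.inr (Or.inr h))
  · exfalso
    -- first coordinate negated: roles (b, c, a)
    refine tau_neg inj3 hbc hab.symm hac.symm hNC.rot.c1 hNC.rot.c2 ?_ ?_ ?_
    · intro y y' z x hzx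
      exact h.2.1 x y y' z (Ne.symm hzx)
    · intro y z z' x hyx
      exact h.2.2 x y z z' (Ne.symm hyx)
    · intro y z x x' hyz
      exact h.1 x x' y z hyz
  · exfalso
    -- second coordinate negated: roles (a, c, b)
    refine tau_neg inj2 hac hab hbc.symm hNC.swap.c1 hNC.swap.c2 ?_ ?_ ?_
    · intro x x' z y hzy
      exact h.1 x x' y z (Ne.symm hzy)
    · intro x z z' y hxy
      exact h.2.2 x y z z' hxy
    · intro x z y y' hxz
      exact h.2.1 x y y' z hxz
  · exfalso
    exact tau_neg hinj hab hac hbc hNC.c1 hNC.c2 h.1 h.2.1 h.2.2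

theorem coord_surj (a : G) (e : Bool) :
    Function.Surjective (fun (x : G → Bool) (g : G) => (e ^^ x (g * a))) := by
  intro w
  refine ⟨fun g => (e ^^ w (g * a⁻¹)), ?_⟩
  funext g
  simp only [inv_mul_cancel_right, mul_inv_cancel_right]
  cases e <;> simp

/-- the main theorem on memory three -/
theorem small_main (a b c : G) (f : Bool → Bool → Bool → Bool)
    (hf : ∀ e : Bool, f ≠ fun x y z => (e ^^ (x ^^ (y ^^ z))))
    (hinj : Function.Injective (tau a b c f)) : Function.Surjective (tau a b c f) := by
  by_cases hNC : NC a b c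
  · rcases noncyc hNC hinj with ⟨e, he⟩ | ⟨e, he⟩ | ⟨e, he⟩ | ⟨e, he⟩
    · have : tau a b c f = fun (x : G → Bool) (g : G) => (e ^^ x (g * a)) := by
        funext x g; exact he _ _ _
      rw [this]; exact coord_surj a e
    · have : tau a b c f = fun (x : G → Bool) (g : G) => (e ^^ x (g * b)) := by
        funext x g; exact he _ _ _
      rw [this]; exact coord_surj b e
    · have : tau a b c f = fun (x : G → Bool) (g : G) => (e ^^ x (g * c)) := by
        funext x g; exact he _ _ _
      rw [this]; exact coord_surj c e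
    · exact absurd (funext fun x => funext fun y => funext fun z => he x y z) (hf e)
  · unfold NC at hNC
    push Not at hNC
    obtain ⟨z, h1, h2⟩ := hNC
    obtain ⟨i, hi⟩ := Subgroup.mem_zpowers_iff.1 h1
    obtain ⟨j, hj⟩ := Subgroup.mem_zpowers_iff.1 h2
    have hb : b = a * z ^ i := by rw [hi]; group
    have hc : c = a * z ^ j := by rw [hj]; group
    -- sig = shift of tau
    have hsig : ∀ (x : G → Bool) (h : G), sig f z i j x h = tau a b c f x (h * a⁻¹) := by
      intro x h
      simp only [sig, tau, hb, hc]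
      have e1 : h * a⁻¹ * a = h := by group
      have e2 : ∀ k : ℤ, h * a⁻¹ * (a * z ^ k) = h * z ^ k := by intro k; group
      rw [e1, e2, e2]
    have hsi : Function.Injective (sig f z i j) := by
      intro x x' h
      apply hinj
      funext g
      have h1 := congrFun h (g * a)
      rw [hsig, hsig] at h1
      simpa using h1
    have hss := sig_surj f z i j hsi
    intro w
    obtain ⟨x, hx⟩ := hss (fun h => w (h * a⁻¹))
    refine ⟨x, ?_⟩
    funext g
    have h1 := congrFun hx (g * a)
    rw [hsig] at h1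
    simpa using h1

end Pool.Agent.H637R2.Gott
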