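import Mathlib
import Pool.Agent.H637R2.Gott.Mono

set_option autoImplicit false

/-!
# Injective continuous maps with a separating family of persistent sets

Helper file for MP_eca62b_al.
-/

namespace Pool.Agent.H637R2.Gott.Pers

open Finset

variable {G : Type*} [Group G] {A : Type*} {ι : Type*}

section count

variable [Fintype A] [Fintype ι] {τ : (G → A) → (G → A)} {U : ι → Set A} {t : ι → G} {q : A}

open Classical in
/-- the elements of `A` lying in all `U i` with `t i ∉ S` -/
noncomputable def V (U : ι → Set A) (t : ι → G) (S : Finset G) : Finset A :=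
  univ.filter (fun c => ∀ i, c ∉ U i → t i ∈ S)

theorem mem_V {S : Finset G} {c : A} : c ∈ V U t S ↔ ∀ i, c ∉ U i → t i ∈ S := by
  classical
  simp [V]

theorem mem_V_empty (hq : ∀ c, (∀ i, c ∈ U i) ↔ c = q) {c : A} : c ∈ V U t ∅ ↔ c = q := by
  rw [mem_V, ← hq c]
  constructor
  · intro h i
    by_contra hi
    exact absurd (h i hi) (Finset.notMem_empty _)
  · intro h i hi
    exact absurd (h i) hi

/-- configurations with a given profile -/
def Prof (U : ι → Set A) (t : ι → G) (I : G → Finset G) : Type _ :=
  {X : G → A // ∀ g, X g ∈ V U t (I g)}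

variable (hq : ∀ c, (∀ i, c ∈ U i) ↔ c = q)

open Classical in
noncomputable def profEquiv (hq : ∀ c, (∀ i, c ∈ U i) ↔ c = q) (I : G → Finset G) (E : Finset G)
    (hE : ∀ g, g ∉ E → I g = ∅) :
    Prof U t I ≃ ((g : E) → V U t (I g)) where
  toFun X g := ⟨X.1 g, X.2 g⟩
  invFun y := ⟨fun g => if h : g ∈ E then (y ⟨g, h⟩ : A) else q, by
    intro g
    by_cases h : g ∈ E
    · simp only [h, dif_pos]; exact (y ⟨g, h⟩).2
    · simp only [h, dif_neg, not_false_iff]
      rw [hE g h]
      exact (mem_V_empty hq).2 rfl⟩
  left_inv X := by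
    apply Subtype.ext
    funext g
    by_cases h : g ∈ E
    · simp [h]
    · simp only [h, dif_neg, not_false_iff]
      have := X.2 g
      rw [hE g h] at this
      exact ((mem_V_empty hq).1 this).symm
  right_inv y := by
    funext g
    apply Subtype.ext
    simp

include hq

theorem prof_finite (I : G → Finset G) (E : Finset G) (hE : ∀ g, g ∉ E → I g = ∅) :
    Finite (Prof U t I) := Finite.of_equiv _ (profEquiv hq I E hE).symm

theorem prof_card (I : G → Finset G) (E : Finset G) (hE : ∀ g, g ∉ E → I g = ∅) :
    Nat.card (Prof U t I) = ∏ g ∈ E, (V U t (I g)).card := by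
  rw [Nat.card_congr (profEquiv hq I E hE), Nat.card_pi]
  simp only [Nat.card_eq_fintype_card, Fintype.card_coe]
  exact Finset.prod_coe_sort E (fun g => (V U t (I g)).card)

variable (H : ∀ (i : ι) (Y : G → A) (k : G), Y (k * t i) ∈ U i → τ Y k ∈ U i)
  (hi : Function.Injective τ)

/-- `τ` on configurations with a given profile -/
def profMap (H : ∀ (i : ι) (Y : G → A) (k : G), Y (k * t i) ∈ U i → τ Y k ∈ U i)
    (I I' : G → Finset G) (hI : ∀ k s, s ∈ I (k * s) → s ∈ I' k) : Prof U t I → Prof U t I' :=
  fun X => ⟨τ X.1, fun k => mem_V.2 fun i h =>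
    hI k _ (mem_V.1 (X.2 (k * t i)) i fun h2 => h (H i X.1 k h2))⟩

include hi in
theorem profMap_inj (I I' : G → Finset G) (hI : ∀ k s, s ∈ I (k * s) → s ∈ I' k) :
    Function.Injective (profMap H I I' hI) := by
  intro X Y h
  have h1 : τ X.1 = τ Y.1 := congrArg Subtype.val h
  exact Subtype.ext (hi h1)

include hq H hi in
theorem card_V_le (S : Finset G) : (V U t S).card ≤ ∏ s ∈ S, (V U t {s}).card := by
  classical
  let I : G → Finset G := fun g => if g = 1 then S else ∅
  let I' : G → Finset G := fun k => if k⁻¹ ∈ S then {k⁻¹} else ∅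
  have hI : ∀ k s, s ∈ I (k * s) → s ∈ I' k := by
    intro k s hs
    by_cases h : k * s = 1
    · simp only [I, h, if_true] at hs
      have h1 : k⁻¹ = s := inv_eq_of_mul_eq_one_right h
      simp [I', h1, hs]
    · simp [I, h] at hs
  have hE : ∀ g, g ∉ ({1} : Finset G) → I g = ∅ := by
    intro g hg
    simp only [Finset.mem_singleton] at hg
    simp [I, hg]
  have hE' : ∀ g, g ∉ S.image (fun s => s⁻¹) → I' g = ∅ := by
    intro g hg
    have : g⁻¹ ∉ S := fun h => hg (Finset.mem_image.2 ⟨g⁻¹, h, inv_inv g⟩)
    simp [I', this]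
  have h1 : Nat.card (Prof U t I) ≤ Nat.card (Prof U t I') := by
    have := prof_finite (t := t) hq I' _ hE'
    exact Nat.card_le_card_of_injective _ (profMap_inj hq H hi I I' hI)
  rw [prof_card hq I _ hE, prof_card hq I' _ hE'] at h1
  rw [Finset.prod_singleton, Finset.prod_image (fun a _ b _ h => inv_injective h)] at h1
  simp only [I, if_true] at h1
  refine h1.trans (le_of_eq (Finset.prod_congr rfl ?_))
  intro s hs
  simp [I', hs]

include hq H hi in
theorem le_card_V (S : Finset G) : ∏ s ∈ S, (V U t {s}).card ≤ (V U t S).card := by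
  classical
  let I : G → Finset G := fun g => if g ∈ S then {g} else ∅
  let I' : G → Finset G := fun k => if k = 1 then S else ∅
  have hI : ∀ k s, s ∈ I (k * s) → s ∈ I' k := by
    intro k s hs
    by_cases h : k * s ∈ S
    · simp only [I, h, if_true, Finset.mem_singleton] at hs
      have h1 : k = 1 := by
        have : 1 * s = k * s := by rw [one_mul]; exact hs
        exact (mul_right_cancel this).symm
      subst h1
      simpa [I'] using h
    · simp [I, h] at hs
  have hE : ∀ g, g ∉ S → I g = ∅ := by
    intro g hg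
    simp [I, hg]
  have hE' : ∀ g, g ∉ ({1} : Finset G) → I' g = ∅ := by
    intro g hg
    simp only [Finset.mem_singleton] at hg
    simp [I', hg]
  have h1 : Nat.card (Prof U t I) ≤ Nat.card (Prof U t I') := by
    have := prof_finite (t := t) hq I' _ hE'
    exact Nat.card_le_card_of_injective _ (profMap_inj hq H hi I I' hI)
  rw [prof_card hq I _ hE, prof_card hq I' _ hE'] at h1
  rw [Finset.prod_singleton] at h1
  simp only [I', if_true] at h1
  refine le_trans (le_of_eq (Finset.prod_congr rfl ?_)) h1
  intro s hs
  simp [I, hs]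

include hq H hi in
theorem card_V (S : Finset G) : (V U t S).card = ∏ s ∈ S, (V U t {s}).card :=
  le_antisymm (card_V_le hq H hi S) (le_card_V hq H hi S)

include hq H hi in
/-- every configuration that is `q` outside a finite set is in the image -/
theorem finite_target (E : Finset G) (Y : G → A) (hY : ∀ g, g ∉ E → Y g = q) :
    ∃ X, τ X = Y := by
  classical
  let T : Finset G := (univ : Finset ι).image t
  let I : G → Finset G := fun g => T.filter (fun s => g * s⁻¹ ∈ E)
  let I' : G → Finset G := fun k => if k ∈ E then T else ∅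
  have hI : ∀ k s, s ∈ I (k * s) → s ∈ I' k := by
    intro k s hs
    simp only [I, Finset.mem_filter, mul_inv_cancel_right] at hs
    simp [I', hs.1, hs.2]
  let D : Finset G := (E ×ˢ T).image (fun p => p.1 * p.2)
  have hE : ∀ g, g ∉ D → I g = ∅ := by
    intro g hg
    apply Finset.eq_empty_of_forall_notMem
    intro s hs
    simp only [I, Finset.mem_filter] at hs
    apply hg
    simp only [D, Finset.mem_image, Finset.mem_product, Prod.exists]
    exact ⟨g * s⁻¹, s, ⟨hs.2, hs.1⟩, by simp⟩
  have hE' : ∀ g, g ∉ E → I' g = ∅ := by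
    intro g hg
    simp [I', hg]
  have := prof_finite (t := t) hq I _ hE
  have := prof_finite (t := t) hq I' _ hE'
  have hcard : Nat.card (Prof U t I') ≤ Nat.card (Prof U t I) := by
    rw [prof_card hq I _ hE, prof_card hq I' _ hE']
    apply le_of_eq
    have h1 : ∀ k ∈ E, (V U t (I' k)).card = ∏ s ∈ T, (V U t {s}).card := by
      intro k hk
      simp only [I', hk, if_true]
      exact card_V hq H hi T
    have h2 : ∀ g ∈ D, (V U t (I g)).card = ∏ s ∈ T, if g * s⁻¹ ∈ E then (V U t {s}).card else 1 := by
      intro g _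
      rw [card_V hq H hi, ← Finset.prod_filter]
    rw [Finset.prod_congr rfl h1, Finset.prod_congr rfl h2,
      Finset.prod_comm (s := E), Finset.prod_comm (s := D)]
    apply Finset.prod_congr rfl
    intro s hs
    rw [← Finset.prod_filter]
    rw [Finset.prod_const, Finset.prod_const]
    congr 1
    symm
    apply Finset.card_bij (fun g _ => g * s⁻¹)
    · intro g hg
      exact (Finset.mem_filter.1 hg).2
    · intro a _ b _ h
      exact mul_right_cancel h
    · intro k hk
      refine ⟨k * s, ?_, by simp⟩
      simp only [Finset.mem_filter, mul_inv_cancel_right]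
      refine ⟨?_, hk⟩
      simp only [D, Finset.mem_image, Finset.mem_product, Prod.exists]
      exact ⟨k, s, ⟨hk, hs⟩, rfl⟩
  have hbij := (profMap_inj hq H hi I I' hI).bijective_of_nat_card_le hcard
  have hYP : ∀ g, Y g ∈ V U t (I' g) := by
    intro g
    by_cases hg : g ∈ E
    · simp only [I', hg, if_true]
      rw [mem_V]
      intro i _
      exact Finset.mem_image.2 ⟨i, Finset.mem_univ _, rfl⟩
    · simp only [I', hg, if_false]
      exact (mem_V_empty hq).2 (hY g hg)
  obtain ⟨X, hX⟩ := hbij.2 ⟨Y, hYP⟩
  exact ⟨X.1, congrArg Subtype.val hX⟩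


end count

/-- An injective continuous self-map of `A^G` with a separating family of persistent sets is
surjective. -/
theorem main {A : Type*} [Finite A] [TopologicalSpace A] [DiscreteTopology A] {ι : Type*}
    [Finite ι] (U : ι → Set A) (t : ι → G) (q : A) (hq : ∀ c, (∀ i, c ∈ U i) ↔ c = q)
    (τ : (G → A) → (G → A)) (hcont : Continuous τ) (hi : Function.Injective τ)
    (H : ∀ (i : ι) (Y : G → A) (k : G), Y (k * t i) ∈ U i → τ Y k ∈ U i) :
    Function.Surjective τ := by
  have := Fintype.ofFinite A
  have := Fintype.ofFinite ι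
  exact surj_of_finite_support hcont q (fun E Y hY => finite_target hq H hi E Y hY)

end Pool.Agent.H637R2.Gott.Pers
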